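import Pool.Agent.Run7.h745.PC_Defs

/-! # PC_E: the coordinate `(B, A)` of the maps on the simplex -/

namespace Run7.h803.PC

open Pool.Agent.Run7.h745.PC

theorem cl_pos {t : ℝ} (ht : 0 < t) : 0 < (cl t : ℝ) := by
  unfold cl
  rw [Set.coe_projIcc]
  exact lt_max_of_lt_right (lt_min one_pos ht)

theorem cl_zero : (cl 0 : ℝ) = 0 := by
  unfold cl
  rw [Set.coe_projIcc]
  simp

theorem hh_pos {x : P4 → ℝ} {B A : Finset (Fin 4)}
    (hB : ∀ π : P4, B.map π.toEmbedding ≠ A → x π < 1 / 25) : 0 < hh B A x := by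
  unfold hh
  refine Finset.prod_pos fun π _ => ?_
  split_ifs with h
  · exact one_pos
  · exact lt_max_of_lt_right (sub_pos.2 (hB π h))

theorem eq_imp {z : ZZ} {i j : Fin 4} (h : sZ j z = tZ i z) {B A : Finset (Fin 4)}
    (hB : ∀ π : P4, B.map π.toEmbedding ≠ A → z.1 π < 1 / 25) : i ∈ B ↔ j ∈ A := by
  obtain ⟨n, hn⟩ := enum_surjective (Sum.inl (B, A))
  have hp := hh_pos hB
  have h1 := congrArg Subtype.val (congrFun h n)
  simp only [sZ, tZ, hn, sval, tval] at h1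
  by_cases hi : i ∈ B <;> by_cases hj : j ∈ A
  · simp [hi, hj]
  · rw [if_neg hj, if_pos hi, cl_zero] at h1
    exact absurd h1 (cl_pos hp).ne
  · rw [if_pos hj, if_neg hi, cl_zero] at h1
    exact absurd h1 (cl_pos hp).ne'
  · simp [hi, hj]

end Run7.h803.PC
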